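import Pool.Agent.J6H36.BSV.Defs

/-! Module TOR of project BSV: the orders of endomorphisms of finite order are bounded. -/

set_option autoImplicit false

open Polynomial

universe u

namespace Pool.Agent.J6H12.BSV

lemma dvd_of_factors {ι : Type*} [DecidableEq ι] (f : ι → ℚ[X]) (P : ℚ[X]) (s : Finset ι) :
    (∀ i ∈ s, Irreducible (f i)) → (∀ i ∈ s, ∀ j ∈ s, i ≠ j → IsCoprime (f i) (f j)) →
    ∀ μ : ℚ[X], μ ∣ ∏ i ∈ s, f i → (∀ i ∈ s, f i ∣ μ → f i ∣ P) → μ ∣ P := by
  induction s using Finset.induction_on with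
  | empty =>
    intro _ _ μ h _
    rw [Finset.prod_empty] at h
    exact h.trans (one_dvd P)
  | insert a s ha ih =>
    intro hirr hcop μ h h2
    rw [Finset.prod_insert ha] at h
    have hirr' : ∀ i ∈ s, Irreducible (f i) := fun i hi => hirr i (Finset.mem_insert_of_mem hi)
    have hcop' : ∀ i ∈ s, ∀ j ∈ s, i ≠ j → IsCoprime (f i) (f j) := fun i hi j hj =>
      hcop i (Finset.mem_insert_of_mem hi) j (Finset.mem_insert_of_mem hj)
    have hfa := hirr a (Finset.mem_insert_self a s)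
    by_cases hd : f a ∣ μ
    · obtain ⟨ν, rfl⟩ := hd
      have hν : ν ∣ ∏ i ∈ s, f i := (mul_dvd_mul_iff_left hfa.ne_zero).mp h
      have h3 : ν ∣ P := ih hirr' hcop' ν hν fun i hi hdi =>
        h2 i (Finset.mem_insert_of_mem hi) (hdi.trans (Dvd.intro_left _ rfl))
      have h4 : f a ∣ P := h2 a (Finset.mem_insert_self a s) (Dvd.intro _ rfl)
      have h5 : IsCoprime (f a) (∏ i ∈ s, f i) := by
        refine IsCoprime.prod_right fun i hi => ?_
        exact hcop a (Finset.mem_insert_self a s) i (Finset.mem_insert_of_mem hi)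
          (fun h => ha (h ▸ hi))
      have h6 : IsCoprime (f a) ν := h5.of_isCoprime_of_dvd_right hν
      exact h6.mul_dvd h4 h3
    · have h3 : IsCoprime μ (f a) := ((hfa.coprime_iff_not_dvd).mpr hd).symm
      have h4 : μ ∣ ∏ i ∈ s, f i := h3.dvd_of_dvd_mul_left h
      exact ih hirr' hcop' μ h4 fun i hi => h2 i (Finset.mem_insert_of_mem hi)

lemma dvd_factorial_of_totient_le {d N : ℕ} (hd : 0 < d) (h : d.totient ≤ N) :
    d ∣ (2 * N).factorial := by
  rw [Nat.dvd_iff_prime_pow_dvd_dvd]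
  intro p e hp hpe
  rcases Nat.eq_zero_or_pos e with rfl | he
  · simp
  refine Nat.dvd_factorial (pow_pos hp.pos e) ?_
  have h1 : (p ^ e).totient ≤ d.totient :=
    Nat.le_of_dvd (Nat.totient_pos.mpr hd) (Nat.totient_dvd_of_dvd hpe)
  have h2 : (p ^ e).totient = p ^ (e - 1) * (p - 1) := Nat.totient_prime_pow hp he
  have h3 : p ^ e = p ^ (e - 1) * p := by
    rw [← pow_succ, Nat.sub_add_cancel he]
  have h4 : p ≤ 2 * (p - 1) := by
    have := hp.two_le
    omega
  calc p ^ e = p ^ (e - 1) * p := h3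
    _ ≤ p ^ (e - 1) * (2 * (p - 1)) := Nat.mul_le_mul_left _ h4
    _ = 2 * (p ^ e).totient := by rw [h2]; ring
    _ ≤ 2 * N := Nat.mul_le_mul_left _ (h1.trans h)

theorem t_TOR : Pool.Agent.J6H36.BSV.S_TOR.{u} := by
  intro W _ _ _
  classical
  refine ⟨(2 * Module.finrank ℚ W).factorial, Nat.factorial_pos _, ?_⟩
  rintro g ⟨m, hm, hg⟩
  have hint : IsIntegral ℚ g := Algebra.IsIntegral.isIntegral g
  have h1 : minpoly ℚ g ∣ ∏ d ∈ m.divisors, cyclotomic d ℚ := by
    rw [prod_cyclotomic_eq_X_pow_sub_one hm]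
    apply minpoly.dvd
    simp [hg]
  have hdeg : (minpoly ℚ g).natDegree ≤ Module.finrank ℚ W := by
    have h := LinearMap.minpoly_dvd_charpoly g
    have h2 := natDegree_le_of_dvd h (LinearMap.charpoly_monic g).ne_zero
    rwa [LinearMap.charpoly_natDegree] at h2
  have h2 : minpoly ℚ g ∣ X ^ (2 * Module.finrank ℚ W).factorial - 1 := by
    refine dvd_of_factors (fun d => cyclotomic d ℚ) _ m.divisors ?_ ?_ _ h1 ?_
    · intro d hd
      exact cyclotomic.irreducible_rat (Nat.pos_of_mem_divisors hd)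
    · intro i hi j hj hij
      exact cyclotomic.isCoprime_rat hij
    · intro d hd hdvd
      have hd0 := Nat.pos_of_mem_divisors hd
      have h3 : d.totient ≤ Module.finrank ℚ W := by
        have h4 := natDegree_le_of_dvd hdvd (minpoly.ne_zero hint)
        rw [natDegree_cyclotomic] at h4
        exact h4.trans hdeg
      have h5 := dvd_factorial_of_totient_le hd0 h3
      rw [← prod_cyclotomic_eq_X_pow_sub_one (Nat.factorial_pos _)]
      exact Finset.dvd_prod_of_mem (fun d => cyclotomic d ℚ)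
        (Nat.mem_divisors.mpr ⟨h5, Nat.factorial_ne_zero _⟩)
  obtain ⟨q, hq⟩ := h2
  have h3 : aeval g (X ^ (2 * Module.finrank ℚ W).factorial - 1 : ℚ[X]) = 0 := by
    rw [hq, map_mul, minpoly.aeval, zero_mul]
  simpa [sub_eq_zero] using h3

end Pool.Agent.J6H12.BSV
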